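import Pool.Agent.Helper17.FP.Stmts

/-!
Module SL: the sieve bound.
-/

set_option autoImplicit false

open Finset

namespace Pool.Agent.Helper17.FP

open Pool.Agent.Helper17.SO Pool.Agent.Helper17.SV

/-- at most `x / M + 1` integers in one class -/
theorem sl_class (x M : ℕ) (T : Finset ℕ)
    (hT : ∀ k ∈ T, k ≤ x ∧ ∀ k' ∈ T, k ≡ k' [MOD M]) : T.card ≤ x / M + 1 := by
  have h1 : T.card ≤ (Finset.range (x / M + 1)).card := by
    refine Finset.card_le_card_of_injOn (fun k => k / M) ?_ ?_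
    · intro k hk
      have := (hT k (Finset.mem_coe.1 hk)).1
      exact Finset.mem_coe.2 (Finset.mem_range.2 (Nat.lt_succ_of_le (Nat.div_le_div_right this)))
    · intro k hk k' hk' h
      have h2 := (hT k (Finset.mem_coe.1 hk)).2 k' (Finset.mem_coe.1 hk')
      have h3 : k / M = k' / M := h
      have h4 : k % M = k' % M := h2
      rw [← Nat.div_add_mod k M, ← Nat.div_add_mod k' M, h3, h4]
  rwa [Finset.card_range] at h1

/-- the first part -/
theorem sl_S1 (lam x Q a z1 z w : ℕ) (P : Finset ℕ) (hz1 : 1 ≤ z1) (hQ : 1 ≤ Q)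
    (hw : w * z1 * Q ≤ x) (hP : P ⊆ PP z1 z) (hPQ : ∀ p ∈ P, ¬ p ∣ Q) (S : Finset ℕ)
    (hS : ∀ k ∈ S, k ≤ x ∧ k % Q = a % Q ∧ lam < k ∧ Gd lam w k ∧
      ∃ p ∈ P, p ^ 2 ∣ k - lam) :
    (S.card : ℝ) ≤ 2 * ((x : ℝ) / Q) * (1 / (z1 : ℝ)) := by
  classical
  have hprime : ∀ p ∈ P, p.Prime ∧ z1 < p ∧ p ≤ z := by
    intro p hp
    have := hP hp
    unfold PP at this
    rw [Finset.mem_filter, Finset.mem_Ioc] at this
    exact ⟨this.2, this.1⟩
  have hQ0 : (0 : ℝ) < Q := by exact_mod_cast hQ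
  have hz0 : (0 : ℝ) < z1 := by exact_mod_cast hz1
  -- covering
  have hcov : S ⊆ (P.filter (fun p => p ≤ w)).biUnion
      (fun p => S.filter (fun k => p ^ 2 ∣ k - lam)) := by
    intro k hk
    obtain ⟨h1, h2, h3, h4, p, hp, h5⟩ := hS k hk
    rw [Finset.mem_biUnion]
    refine ⟨p, ?_, ?_⟩
    · rw [Finset.mem_filter]
      refine ⟨hp, ?_⟩
      by_contra hlt
      exact h4 p (hprime p hp).1 (not_le.1 hlt) h5
    · rw [Finset.mem_filter]
      exact ⟨hk, h5⟩
  have hone : ∀ p ∈ P.filter (fun p => p ≤ w),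
      ((S.filter (fun k => p ^ 2 ∣ k - lam)).card : ℝ) ≤ (x : ℝ) / Q * ((p : ℝ) ^ 2)⁻¹ + 1 := by
    intro p hp
    rw [Finset.mem_filter] at hp
    have hpp := (hprime p hp.1).1
    have hcop : Nat.Coprime Q (p ^ 2) := by
      refine Nat.Coprime.pow_right 2 ?_
      exact ((Nat.Prime.coprime_iff_not_dvd hpp).2 (hPQ p hp.1)).symm
    have hcard := sl_class x (Q * p ^ 2) (S.filter (fun k => p ^ 2 ∣ k - lam)) (by
      intro k hk
      rw [Finset.mem_filter] at hk
      obtain ⟨h1, h2, h3, h4, _⟩ := hS k hk.1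
      refine ⟨h1, ?_⟩
      intro k' hk'
      rw [Finset.mem_filter] at hk'
      obtain ⟨h1', h2', h3', h4', _⟩ := hS k' hk'.1
      rw [← Nat.modEq_and_modEq_iff_modEq_mul hcop]
      refine ⟨h2.trans h2'.symm, ?_⟩
      have e1 : lam ≡ k [MOD p ^ 2] := (Nat.modEq_iff_dvd' h3.le).2 hk.2
      have e2 : lam ≡ k' [MOD p ^ 2] := (Nat.modEq_iff_dvd' h3'.le).2 hk'.2
      exact e1.symm.trans e2)
    have hcard' : ((S.filter (fun k => p ^ 2 ∣ k - lam)).card : ℝ) ≤
        ((x / (Q * p ^ 2) : ℕ) : ℝ) + 1 := by exact_mod_cast hcard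
    have hdiv : ((x / (Q * p ^ 2) : ℕ) : ℝ) ≤ (x : ℝ) / ((Q * p ^ 2 : ℕ) : ℝ) := Nat.cast_div_le
    have e : (x : ℝ) / ((Q * p ^ 2 : ℕ) : ℝ) = (x : ℝ) / Q * ((p : ℝ) ^ 2)⁻¹ := by
      push_cast
      rw [← div_div, div_eq_mul_inv ((x : ℝ) / Q)]
    rw [e] at hdiv
    linarith
  have hsum : (S.card : ℝ) ≤ ∑ p ∈ P.filter (fun p => p ≤ w),
      ((x : ℝ) / Q * ((p : ℝ) ^ 2)⁻¹ + 1) := by
    have h1 : S.card ≤ ∑ p ∈ P.filter (fun p => p ≤ w),
        (S.filter (fun k => p ^ 2 ∣ k - lam)).card :=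
      (Finset.card_le_card hcov).trans Finset.card_biUnion_le
    have h2 : (S.card : ℝ) ≤ ∑ p ∈ P.filter (fun p => p ≤ w),
        ((S.filter (fun k => p ^ 2 ∣ k - lam)).card : ℝ) := by exact_mod_cast h1
    exact h2.trans (Finset.sum_le_sum hone)
  have hsub : P.filter (fun p => p ≤ w) ⊆ Ioc z1 w := by
    intro p hp
    rw [Finset.mem_filter] at hp
    rw [Finset.mem_Ioc]
    exact ⟨(hprime p hp.1).2.1, hp.2⟩
  have hw' : (w : ℝ) ≤ (x : ℝ) / Q * (1 / z1) := by
    have h1 : (w : ℝ) * z1 * Q ≤ x := by exact_mod_cast hw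
    rw [div_mul_div_comm, mul_one, le_div_iff₀ (by positivity)]
    nlinarith [h1]
  by_cases hzw : z1 ≤ w
  · have hsq : ∑ p ∈ P.filter (fun p => p ≤ w), ((p : ℝ) ^ 2)⁻¹ ≤ 1 / z1 := by
      calc ∑ p ∈ P.filter (fun p => p ≤ w), ((p : ℝ) ^ 2)⁻¹
          ≤ ∑ p ∈ Ioc z1 w, ((p : ℝ) ^ 2)⁻¹ :=
            Finset.sum_le_sum_of_subset_of_nonneg hsub (fun _ _ _ => by positivity)
        _ ≤ (z1 : ℝ)⁻¹ - (w : ℝ)⁻¹ := sum_Ioc_inv_sq_le_sub (by omega) hzw
        _ ≤ 1 / z1 := by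
            have : (0 : ℝ) ≤ (w : ℝ)⁻¹ := by positivity
            rw [one_div]
            linarith
    have hcd : ((P.filter (fun p => p ≤ w)).card : ℝ) ≤ w := by
      have h1 := Finset.card_le_card hsub
      rw [Nat.card_Ioc] at h1
      have h2 : (P.filter (fun p => p ≤ w)).card ≤ w := h1.trans (Nat.sub_le _ _)
      exact_mod_cast h2
    have hx : 0 ≤ (x : ℝ) / Q := by positivity
    calc (S.card : ℝ) ≤ ∑ p ∈ P.filter (fun p => p ≤ w),
          ((x : ℝ) / Q * ((p : ℝ) ^ 2)⁻¹ + 1) := hsum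
      _ = (x : ℝ) / Q * ∑ p ∈ P.filter (fun p => p ≤ w), ((p : ℝ) ^ 2)⁻¹ +
          ((P.filter (fun p => p ≤ w)).card : ℝ) := by
          rw [Finset.sum_add_distrib, ← Finset.mul_sum, Finset.sum_const, nsmul_eq_mul, mul_one]
      _ ≤ (x : ℝ) / Q * (1 / z1) + w := add_le_add (mul_le_mul_of_nonneg_left hsq hx) hcd
      _ ≤ 2 * ((x : ℝ) / Q) * (1 / (z1 : ℝ)) := by linarith
  · have hempty : P.filter (fun p => p ≤ w) = ∅ := by
      rw [Finset.eq_empty_iff_forall_notMem]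
      intro p hp
      have := hsub hp
      rw [Finset.mem_Ioc] at this
      omega
    rw [hempty, Finset.sum_empty] at hsum
    exact hsum.trans (by positivity)

open Classical in
/-- the forbidden classes -/
noncomputable def slOm (lam : ℕ) (P P' : Finset ℕ) (l : ℕ) : Finset (ZMod l) :=
  if h : l.Prime then
    haveI : Fact l.Prime := ⟨h⟩
    (if l ∈ P then {(lam : ZMod l)} else ∅) ∪
      (if l ∈ P' then Finset.univ.filter (fun r : ZMod l => r ^ 2 - r + lam = 0) else ∅)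
  else ∅

/-- the number of forbidden classes -/
theorem sl_card (hR : ST_ROOT) (lam : ℕ) (P P' : Finset ℕ) (l : ℕ) (hlam : 1 ≤ lam)
    (hl : l.Prime) (h4 : 4 * lam < l) :
    ((slOm lam P P' l).card : ℝ) = (if l ∈ P then 1 else 0) +
      (if l ∈ P' then (1 + (jacobiSym (1 - 4 * (lam : ℤ)) l : ℝ)) else 0) := by
  classical
  have : Fact l.Prime := ⟨hl⟩
  have h := hR lam l hlam h4 (Finset.univ.filter (fun r : ZMod l => r ^ 2 - r + lam = 0))
    (fun r => by simp)
  unfold slOm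
  rw [dif_pos hl]
  rw [Finset.card_union_of_disjoint]
  · have hc : ((Finset.univ.filter (fun r : ZMod l => r ^ 2 - r + lam = 0)).card : ℝ) =
        1 + (jacobiSym (1 - 4 * (lam : ℤ)) l : ℝ) := by exact_mod_cast h.1
    by_cases h1 : l ∈ P
    · by_cases h2 : l ∈ P'
      · rw [if_pos h1, if_pos h2, if_pos h1, if_pos h2, ← hc]
        push_cast
        rw [Finset.card_singleton]
        push_cast
        rfl
      · rw [if_pos h1, if_neg h2, if_pos h1, if_neg h2]
        simp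
    · by_cases h2 : l ∈ P'
      · rw [if_neg h1, if_pos h2, if_neg h1, if_pos h2, ← hc]
        simp
      · rw [if_neg h1, if_neg h2, if_neg h1, if_neg h2]
        simp
  · by_cases h1 : l ∈ P
    · by_cases h2 : l ∈ P'
      · rw [if_pos h1, if_pos h2, Finset.disjoint_singleton_left]
        exact h.2.1
      · rw [if_neg h2]
        exact Finset.disjoint_empty_right _
    · rw [if_neg h1]
      exact Finset.disjoint_empty_left _

/-- the integers avoid the forbidden classes -/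
theorem sl_avoid (lam : ℕ) (P P' : Finset ℕ) (l k : ℕ)
    (h1 : l ∈ P → (k : ZMod l) ≠ lam) (h2 : l ∈ P' → ¬ FD lam l k) :
    (k : ZMod l) ∉ slOm lam P P' l := by
  classical
  unfold slOm
  by_cases hl : l.Prime
  · have : Fact l.Prime := ⟨hl⟩
    rw [dif_pos hl, Finset.mem_union, not_or]
    constructor
    · by_cases hP : l ∈ P
      · rw [if_pos hP, Finset.mem_singleton]
        exact h1 hP
      · rw [if_neg hP]
        exact Finset.notMem_empty _
    · by_cases hP : l ∈ P'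
      · rw [if_pos hP, Finset.mem_filter, not_and]
        intro _ h
        apply h2 hP
        unfold FD
        rw [← ZMod.intCast_zmod_eq_zero_iff_dvd]
        push_cast
        exact h
      · rw [if_neg hP]
        exact Finset.notMem_empty _
  · rw [dif_neg hl]
    exact Finset.notMem_empty _

theorem st_SL (h1 : Pool.Agent.Helper17.SO.ST_SAP) (h2 : Pool.Agent.Helper17.SO.ST_ROOT) :
    ST_SL := by
  classical
  intro lam hlam
  obtain ⟨b, C, hb, hC, hsieve⟩ := h1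
  refine ⟨b, C + 2, hb, by linarith, ?_⟩
  intro x Q a z1 z w P P' hz1 hz hQ hx hw hP hP' hPQ hPQ' S hS
  have hmem : ∀ p ∈ P ∪ P', p.Prime ∧ z1 < p ∧ p ≤ z := by
    intro p hp
    have h3 : p ∈ PP z1 z := by
      rcases Finset.mem_union.1 hp with h | h
      · exact hP h
      · exact hP' h
    unfold PP at h3
    rw [Finset.mem_filter, Finset.mem_Ioc] at h3
    exact ⟨h3.2, h3.1⟩
  set E := Real.exp (-∑ p ∈ P, 1 / (p : ℝ) -
    ∑ p ∈ P', (1 + (jacobiSym (1 - 4 * (lam : ℤ)) p : ℝ)) / p) with hE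
  -- first part
  have hA := sl_S1 lam x Q a z1 z w P (by omega) hQ hw hP hPQ
    (S.filter (fun k => ∃ p ∈ P, p ^ 2 ∣ k - lam)) (by
      intro k hk
      rw [Finset.mem_filter] at hk
      obtain ⟨a1, a2, a3, a4, _⟩ := hS k hk.1
      exact ⟨a1, a2, a3, a4, hk.2⟩)
  -- second part
  have hB := hsieve z x Q a (P ∪ P') (slOm lam P P') (by omega) hQ hx (by
      intro l hl
      obtain ⟨b1, b2, b3⟩ := hmem l hl
      refine ⟨b1, by omega, b3, ?_, ?_⟩
      · have hc := sl_card h2 lam P P' l hlam b1 (by omega)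
        have hj : (jacobiSym (1 - 4 * (lam : ℤ)) l : ℝ) ≤ 1 := by
          rcases jacobiSym.trichotomy (1 - 4 * (lam : ℤ)) l with h | h | h
          · rw [h]; norm_num
          · rw [h]; norm_num
          · rw [h]; norm_num
        have hle : ((slOm lam P P' l).card : ℝ) ≤ 3 := by
          rw [hc]
          split_ifs <;> linarith
        exact_mod_cast hle
      · rcases Finset.mem_union.1 hl with h | h
        · exact hPQ l h
        · exact hPQ' l h)
    (S.filter (fun k => ¬ ∃ p ∈ P, p ^ 2 ∣ k - lam)) (by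
      intro k hk
      rw [Finset.mem_filter] at hk
      obtain ⟨a1, a2, a3, a4, a5, a6⟩ := hS k hk.1
      refine ⟨a1, a2, ?_⟩
      intro l hl
      obtain ⟨b1, b2, b3⟩ := hmem l hl
      refine sl_avoid lam P P' l k ?_ (fun h => a6 l h)
      intro hlP heq
      have hdvd : l ∣ k - lam := by
        have h3 : (lam : ZMod l) = (k : ZMod l) := heq.symm
        rw [ZMod.natCast_eq_natCast_iff] at h3
        exact (Nat.modEq_iff_dvd' a3.le).1 h3
      have hne : k - lam ≠ 0 := by omega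
      have hf1 : 1 ≤ (k - lam).factorization l :=
        (Nat.Prime.dvd_iff_one_le_factorization b1 hne).1 hdvd
      have hf2 := a5 l hlP
      have hf3 : 2 ≤ (k - lam).factorization l := by omega
      exact hk.2 ⟨l, hlP, (Nat.Prime.pow_dvd_iff_le_factorization b1 hne).2 hf3⟩)
  have hsumE : Real.exp (-∑ l ∈ P ∪ P', ((slOm lam P P' l).card : ℝ) / l) = E := by
    rw [hE]
    congr 1
    have e1 : ∑ l ∈ P ∪ P', ((slOm lam P P' l).card : ℝ) / l =
        ∑ l ∈ P ∪ P', (if l ∈ P then 1 / (l : ℝ) else 0) + ∑ l ∈ P ∪ P',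
          (if l ∈ P' then (1 + (jacobiSym (1 - 4 * (lam : ℤ)) l : ℝ)) / l else 0) := by
      rw [← Finset.sum_add_distrib]
      refine Finset.sum_congr rfl fun l hl => ?_
      obtain ⟨b1, b2, b3⟩ := hmem l hl
      rw [sl_card h2 lam P P' l hlam b1 (by omega), add_div]
      congr 1
      · split_ifs
        · rfl
        · simp
      · split_ifs
        · rfl
        · simp
    have e2 : ∑ l ∈ P ∪ P', (if l ∈ P then 1 / (l : ℝ) else 0) = ∑ l ∈ P, 1 / (l : ℝ) := by
      rw [← Finset.sum_filter]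
      congr 1
      ext l
      rw [Finset.mem_filter, Finset.mem_union]
      tauto
    have e3 : ∑ l ∈ P ∪ P',
        (if l ∈ P' then (1 + (jacobiSym (1 - 4 * (lam : ℤ)) l : ℝ)) / l else 0) =
        ∑ l ∈ P', (1 + (jacobiSym (1 - 4 * (lam : ℤ)) l : ℝ)) / l := by
      rw [← Finset.sum_filter]
      congr 1
      ext l
      rw [Finset.mem_filter, Finset.mem_union]
      tauto
    rw [e1, e2, e3]
    ring
  rw [hsumE] at hB
  have hcard : (S.card : ℝ) = ((S.filter (fun k => ∃ p ∈ P, p ^ 2 ∣ k - lam)).card : ℝ) +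
      ((S.filter (fun k => ¬ ∃ p ∈ P, p ^ 2 ∣ k - lam)).card : ℝ) := by
    have := Finset.card_filter_add_card_filter_not (s := S)
      (fun k => ∃ p ∈ P, p ^ 2 ∣ k - lam)
    exact_mod_cast this.symm
  rw [hcard]
  have hxQ : 0 ≤ (x : ℝ) / Q := by positivity
  have hE0 : 0 < E := Real.exp_pos _
  have hz10 : 0 ≤ 1 / (z1 : ℝ) := by positivity
  have hp1 : 0 ≤ (x : ℝ) / Q * E := mul_nonneg hxQ hE0.le
  have hp2 : 0 ≤ (x : ℝ) / Q * (1 / (z1 : ℝ)) := mul_nonneg hxQ hz10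
  calc ((S.filter (fun k => ∃ p ∈ P, p ^ 2 ∣ k - lam)).card : ℝ) +
      ((S.filter (fun k => ¬ ∃ p ∈ P, p ^ 2 ∣ k - lam)).card : ℝ)
      ≤ 2 * ((x : ℝ) / Q) * (1 / (z1 : ℝ)) + C * ((x : ℝ) / Q) * E := add_le_add hA hB
    _ ≤ (C + 2) * ((x : ℝ) / Q) * (E + 1 / (z1 : ℝ)) := by
        have : 0 ≤ C * ((x : ℝ) / Q * (1 / (z1 : ℝ))) := mul_nonneg hC.le hp2
        nlinarith [this, hp1]

end Pool.Agent.Helper17.FP
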